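import Pool.Agent.H59.Disc.Glue
import Pool.Agent.H71.Disc3.Ext

/-!
# The closed disc is not the union of three disjoint congruent sets
-/

set_option autoImplicit false

universe u v

namespace Pool.Agent.Results.MP_b0bf97_co.ClosedDisc

/-- `A` and `B` are congruent: some map preserves all distances between points of `A` and maps
`A` onto `B`. -/
def Congruent {V : Type v} [MetricSpace V] (A B : Set V) : Prop :=
  ∃ f : V → V, (∀ x ∈ A, ∀ y ∈ A, dist (f x) (f y) = dist x y) ∧ f '' A = B

/-- `X` is the union of `m` pairwise disjoint subsets, any two of which are congruent. -/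
def IsDivisible {V : Type v} [MetricSpace V] (m : Cardinal.{u}) (X : Set V) : Prop :=
  ∃ (ι : Type u) (P : ι → Set V), Cardinal.mk ι = m ∧ (⋃ i, P i) = X ∧
    (∀ i j, i ≠ j → Disjoint (P i) (P j)) ∧ ∀ i j, Congruent (P i) (P j)

private theorem aux {V : Type v} [NormedAddCommGroup V] [InnerProductSpace ℝ V]
    (hV : Module.finrank ℝ V = 2) (c : V) {r : ℝ} (hr : 0 < r) (A B C : Set V)
    (hcov : A ∪ B ∪ C = Metric.closedBall c r) (hAB : Disjoint A B) (hAC : Disjoint A C)
    (hBC : Disjoint B C) (h1 : Congruent A B) (h2 : Congruent A C) : False := by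
  have : FiniteDimensional ℝ V := FiniteDimensional.of_finrank_eq_succ (n := 1) (by rw [hV])
  obtain ⟨f, hf, hfB⟩ := h1
  obtain ⟨g, hg, hgC⟩ := h2
  let e : V ≃ₗᵢ[ℝ] EuclideanSpace ℝ (Fin 2) :=
    ((stdOrthonormalBasis ℝ V).reindex (finCongr hV)).repr
  let s : V → EuclideanSpace ℝ (Fin 2) := fun x => e (r⁻¹ • (x - c))
  let t : EuclideanSpace ℝ (Fin 2) → V := fun y => r • e.symm y + c
  have hts : ∀ x, t (s x) = x := by
    intro x
    simp only [s, t, LinearIsometryEquiv.symm_apply_apply]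
    rw [smul_inv_smul₀ hr.ne', sub_add_cancel]
  have hst : ∀ y, s (t y) = y := by
    intro y
    simp only [s, t, add_sub_cancel_right]
    rw [inv_smul_smul₀ hr.ne', LinearIsometryEquiv.apply_symm_apply]
  have hinj : Function.Injective s := Function.LeftInverse.injective hts
  have hds : ∀ x y, dist (s x) (s y) = r⁻¹ * dist x y := by
    intro x y
    simp only [s]
    rw [e.dist_map, dist_smul₀, dist_sub_right, Real.norm_of_nonneg (inv_nonneg.2 hr.le)]
  have hdt : ∀ x y, dist (t x) (t y) = r * dist x y := by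
    intro x y
    have := hds (t x) (t y)
    rw [hst, hst] at this
    rw [this]
    field_simp
  have key : ∀ (k : V → V), (∀ x ∈ A, ∀ y ∈ A, dist (k x) (k y) = dist x y) →
      ∃ φ : EuclideanSpace ℝ (Fin 2) ≃ᵢ EuclideanSpace ℝ (Fin 2), φ '' (s '' A) = s '' (k '' A) := by
    intro k hk
    obtain ⟨φ, hφ⟩ := Pool.Agent.H71.Disc3.exists_extension (s '' A) (fun y => s (k (t y))) (by
      rintro _ ⟨x, hx, rfl⟩ _ ⟨y, hy, rfl⟩
      simp only [hts, hds]
      rw [hk x hx y hy])
    refine ⟨φ, ?_⟩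
    rw [Set.image_congr hφ, Set.image_image, Set.image_image]
    simp only [hts]
  obtain ⟨φ, hφ⟩ := key f hf
  obtain ⟨ψ, hψ⟩ := key g hg
  rw [hfB] at hφ
  rw [hgC] at hψ
  refine Pool.Agent.H59.Disc.not_divisible (s '' A) (s '' B) (s '' C) ?_
    ((Set.disjoint_image_iff hinj).2 hAB) ((Set.disjoint_image_iff hinj).2 hAC)
    ((Set.disjoint_image_iff hinj).2 hBC) φ ψ hφ hψ
  rw [← Set.image_union, ← Set.image_union, hcov]
  ext y
  constructor
  · rintro ⟨x, hx, rfl⟩
    rw [Metric.mem_closedBall] at *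
    have h0 : s c = 0 := by simp [s]
    rw [← h0, hds]
    calc r⁻¹ * dist x c ≤ r⁻¹ * r := by gcongr
      _ = 1 := by field_simp
  · intro hy
    refine ⟨t y, ?_, hst y⟩
    rw [Metric.mem_closedBall] at *
    have h0 : t 0 = c := by simp [t]
    rw [← h0, hdt]
    calc r * dist y 0 ≤ r * 1 := by gcongr
      _ = r := mul_one r

/-- A closed disc of any Euclidean plane is not 3-divisible. -/
theorem result {V : Type v} [NormedAddCommGroup V] [InnerProductSpace ℝ V]
    (hV : Module.finrank ℝ V = 2) (c : V) (r : ℝ) (hr : 0 < r) :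
    ¬ IsDivisible (3 : Cardinal.{u}) (Metric.closedBall c r) := by
  rintro ⟨ι, P, hι, hP, hd, hc⟩
  have hcard : Nat.card ι = 3 := by
    rw [Nat.card, hι]
    simp
  have : Finite ι := Nat.finite_of_card_ne_zero (by rw [hcard]; norm_num)
  let e : ι ≃ Fin 3 := Finite.equivFinOfCardEq hcard
  refine aux hV c hr (P (e.symm 0)) (P (e.symm 1)) (P (e.symm 2)) ?_ (hd _ _ ?_) (hd _ _ ?_)
    (hd _ _ ?_) (hc _ _) (hc _ _)
  · rw [← hP]
    ext x
    simp only [Set.mem_union, Set.mem_iUnion]
    constructor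
    · rintro ((h | h) | h)
      · exact ⟨_, h⟩
      · exact ⟨_, h⟩
      · exact ⟨_, h⟩
    · rintro ⟨i, hi⟩
      obtain ⟨j, rfl⟩ := e.symm.surjective i
      fin_cases j
      · exact Or.inl (Or.inl hi)
      · exact Or.inl (Or.inr hi)
      · exact Or.inr hi
  all_goals
    intro h
    have := e.symm.injective h
    revert this
    decide

end Pool.Agent.Results.MP_b0bf97_co.ClosedDisc
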